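import Mathlib
import Pool.Agent.Helper676.TL.Defs
import Pool.Agent.Helper676.TL.Geo

/-! Thin lens (MP_49383f_gt): block B6, Dirac system => immersion of constant mean curvature. -/

set_option autoImplicit false

namespace Pool.Agent.Helper676.TL.B6

open Set Metric
open scoped ContDiff

theorem cj_mul (x y : ℂ) : cj (x * y) = cj x * cj y := map_mul _ _ _
theorem cj_add (x y : ℂ) : cj (x + y) = cj x + cj y := map_add _ _ _
theorem cj_sub (x y : ℂ) : cj (x - y) = cj x - cj y := map_sub _ _ _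
theorem cj_div (x y : ℂ) : cj (x / y) = cj x / cj y := map_div₀ _ _ _
theorem cj_pow (x : ℂ) (n : ℕ) : cj (x ^ n) = cj x ^ n := map_pow _ _ _
theorem cj_cj (x : ℂ) : cj (cj x) = x := Complex.conj_conj x
theorem cj_re (x : ℝ) : cj (x : ℂ) = x := Complex.conj_ofReal x
theorem cj_two : cj 2 = 2 := map_ofNat (starRingEnd ℂ) 2
theorem cj_ntwo : cj (-2) = -2 := by
  have h : cj (-2) = - cj 2 := map_neg _ _
  rw [h, cj_two]

/-- the derivative of `Xmap` -/
noncomputable def XL (f' : ℂ →L[ℝ] ℂ) (z' : ℂ →L[ℝ] ℝ) : ℂ →L[ℝ] E3 :=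
  LinearMap.toContinuousLinearMap
    { toFun := fun v => !₂[(f' v).re, (f' v).im, z' v]
      map_add' := by
        intro x y
        ext i
        fin_cases i <;> simp
      map_smul' := by
        intro c x
        rw [map_smul, map_smul]
        ext i
        fin_cases i <;> simp }

theorem XL_apply (f' : ℂ →L[ℝ] ℂ) (z' : ℂ →L[ℝ] ℝ) (v : ℂ) :
    XL f' z' v = !₂[(f' v).re, (f' v).im, z' v] := rfl

theorem hasFDerivAt_Xmap {f : ℂ → ℂ} {z : ℂ → ℝ} {f' : ℂ →L[ℝ] ℂ} {z' : ℂ →L[ℝ] ℝ} {ζ : ℂ}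
    (hf : HasFDerivAt f f' ζ) (hz : HasFDerivAt z z' ζ) :
    HasFDerivAt (Xmap f z) (XL f' z') ζ := by
  rw [← hasFDerivWithinAt_univ, hasFDerivWithinAt_euclidean]
  intro i
  rw [hasFDerivWithinAt_univ]
  fin_cases i
  · exact (Complex.reCLM.hasFDerivAt.comp ζ hf).congr_fderiv (by ext <;> simp [XL_apply])
  · exact (Complex.imCLM.hasFDerivAt.comp ζ hf).congr_fderiv (by ext <;> simp [XL_apply])
  · exact hz.congr_fderiv (by ext <;> simp [XL_apply])

theorem contDiffOn_Xmap {f : ℂ → ℂ} {z : ℂ → ℝ} {V : Set ℂ}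
    (hf : ContDiffOn ℝ ∞ f V) (hz : ContDiffOn ℝ ∞ z V) : ContDiffOn ℝ ∞ (Xmap f z) V := by
  rw [contDiffOn_euclidean]
  intro i
  fin_cases i
  · exact Complex.reCLM.contDiff.comp_contDiffOn hf
  · exact Complex.imCLM.contDiff.comp_contDiffOn hf
  · exact hz

theorem fderiv_eq_dz (f : ℂ → ℂ) (ζ v : ℂ) :
    fderiv ℝ f ζ v = dz f ζ * v + dzb f ζ * cj v := by
  have hv : v = v.re • (1:ℂ) + v.im • Complex.I := by
    simp [Complex.re_add_im]
  have h1 : fderiv ℝ f ζ v = v.re • fderiv ℝ f ζ 1 + v.im • fderiv ℝ f ζ Complex.I := by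
    conv_lhs => rw [hv]
    rw [map_add, map_smul, map_smul]
  have h2 : cj v = v.re - v.im * Complex.I := by
    apply Complex.ext <;> simp
  have h3 : v = v.re + v.im * Complex.I := (Complex.re_add_im v).symm
  rw [h1, h2]
  unfold dz dzb
  generalize fderiv ℝ f ζ 1 = x
  generalize fderiv ℝ f ζ Complex.I = y
  rw [Complex.real_smul, Complex.real_smul]
  nth_rewrite 3 [h3]
  linear_combination (y * v.im) * Complex.I_sq

/-- the map `v ↦ H v + β conj v` -/
noncomputable def SS (H : ℝ) (β : ℂ) : ℂ →L[ℝ] ℂ :=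
  LinearMap.toContinuousLinearMap
    { toFun := fun v => (H : ℂ) * v + β * cj v
      map_add' := by intro x y; simp; ring
      map_smul' := by intro c x; simp; ring }

theorem SS_apply (H : ℝ) (β v : ℂ) : SS H β v = (H : ℂ) * v + β * cj v := rfl

theorem trace_SS (H : ℝ) (β : ℂ) : LinearMap.trace ℝ ℂ (SS H β : ℂ →ₗ[ℝ] ℂ) = 2 * H := by
  rw [LinearMap.trace_eq_matrix_trace ℝ Complex.basisOneI, Matrix.trace, Fin.sum_univ_two]
  simp [LinearMap.toMatrix_apply, SS_apply]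
  ring

/-- the planar part of the normal -/
noncomputable def PN (a b : ℂ → ℂ) (w : ℂ) : ℂ :=
  2 * a w * cj (b w) / (a w * cj (a w) + b w * cj (b w))

/-- vertical part of the normal, complex valued -/
noncomputable def QN (a b : ℂ → ℂ) (w : ℂ) : ℂ :=
  (b w * cj (b w) - a w * cj (a w)) / (a w * cj (a w) + b w * cj (b w))

theorem conj_cd {g : ℂ → ℂ} {V : Set ℂ} (h : ContDiffOn ℝ ∞ g V) :
    ContDiffOn ℝ ∞ (fun w => cj (g w)) V :=
  (Complex.conjCLE : ℂ →L[ℝ] ℂ).contDiff.comp_contDiffOn h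

theorem algP (a a1 b b1 A A1 B B1 v v1 H l : ℂ) (hl : l ≠ 0) (hl' : l = a * a1 + b * b1) :
    ((2 * (A * v + H / 2 * l * b1 * v1) * b1 + 2 * a * (B1 * v1 - H / 2 * l * a * v)) * l -
      2 * a * b1 * (((A * v + H / 2 * l * b1 * v1) * a1 + a * (A1 * v1 + H / 2 * l * b * v)) +
        ((B * v - H / 2 * l * a1 * v1) * b1 + b * (B1 * v1 - H / 2 * l * a * v)))) / l ^ 2 =
    -(a ^ 2 * (H * v + (-2 * (a1 * B1 - A1 * b1) / l ^ 2) * v1)
      - b1 ^ 2 * (H * v1 + (-2 * (a * B - A * b) / l ^ 2) * v)) := by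
  rw [div_eq_iff (pow_ne_zero 2 hl)]
  have e : ∀ x y : ℂ, (H * x + (-2 * y / l ^ 2) * v1) * l ^ 2 = H * x * l ^ 2 - 2 * y * v1 := by
    intro x y; field_simp; ring
  have e' : ∀ x y : ℂ, (H * x + (-2 * y / l ^ 2) * v) * l ^ 2 = H * x * l ^ 2 - 2 * y * v := by
    intro x y; field_simp; ring
  have : -(a ^ 2 * (H * v + (-2 * (a1 * B1 - A1 * b1) / l ^ 2) * v1)
      - b1 ^ 2 * (H * v1 + (-2 * (a * B - A * b) / l ^ 2) * v)) * l ^ 2 =
      -(a ^ 2 * (H * v * l ^ 2 - 2 * (a1 * B1 - A1 * b1) * v1)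
      - b1 ^ 2 * (H * v1 * l ^ 2 - 2 * (a * B - A * b) * v)) := by
    rw [← e, ← e']; ring
  rw [this, hl']
  ring

theorem algQ (a a1 b b1 A A1 B B1 v v1 H l : ℂ) (hl : l ≠ 0) (hl' : l = a * a1 + b * b1) :
    ((((B * v - H / 2 * l * a1 * v1) * b1 + b * (B1 * v1 - H / 2 * l * a * v)) -
      ((A * v + H / 2 * l * b1 * v1) * a1 + a * (A1 * v1 + H / 2 * l * b * v))) * l -
      (b * b1 - a * a1) * (((A * v + H / 2 * l * b1 * v1) * a1 + a * (A1 * v1 + H / 2 * l * b * v)) +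
        ((B * v - H / 2 * l * a1 * v1) * b1 + b * (B1 * v1 - H / 2 * l * a * v)))) / l ^ 2 =
    -(a * b * (H * v + (-2 * (a1 * B1 - A1 * b1) / l ^ 2) * v1)
      + a1 * b1 * (H * v1 + (-2 * (a * B - A * b) / l ^ 2) * v)) := by
  rw [div_eq_iff (pow_ne_zero 2 hl)]
  have e : ∀ x y : ℂ, (H * x + (-2 * y / l ^ 2) * v1) * l ^ 2 = H * x * l ^ 2 - 2 * y * v1 := by
    intro x y; field_simp; ring
  have e' : ∀ x y : ℂ, (H * x + (-2 * y / l ^ 2) * v) * l ^ 2 = H * x * l ^ 2 - 2 * y * v := by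
    intro x y; field_simp; ring
  have : -(a * b * (H * v + (-2 * (a1 * B1 - A1 * b1) / l ^ 2) * v1)
      + a1 * b1 * (H * v1 + (-2 * (a * B - A * b) / l ^ 2) * v)) * l ^ 2 =
      -(a * b * (H * v * l ^ 2 - 2 * (a1 * B1 - A1 * b1) * v1)
      + a1 * b1 * (H * v1 * l ^ 2 - 2 * (a * B - A * b) * v)) := by
    rw [← e, ← e']; ring
  rw [this, hl']
  ring

/-- BLOCK B6 -/
theorem b6 {H : ℝ} {a b f : ℂ → ℂ} {z : ℂ → ℝ} {V : Set ℂ} (hV : IsOpen V) (hd : Dirac H a b V)
    (hf : ContDiffOn ℝ ∞ f V) (hz : ContDiffOn ℝ ∞ z V)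
    (h1 : ∀ ζ ∈ V, dz f ζ = a ζ ^ 2) (h2 : ∀ ζ ∈ V, dzb f ζ = - (cj (b ζ)) ^ 2)
    (h3 : ∀ ζ ∈ V, dz (fun w => (z w : ℂ)) ζ = a ζ * b ζ)
    (h0 : ∀ ζ ∈ V, a ζ ≠ 0 ∨ b ζ ≠ 0) : CmcImmersion (Xmap f z) V H := by
  obtain ⟨ca, cb, da, db⟩ := hd
  -- the complex number `l`
  have hl : ∀ w, a w * cj (a w) + b w * cj (b w) = ((‖a w‖ ^ 2 + ‖b w‖ ^ 2 : ℝ) : ℂ) := by
    intro w
    push_cast
    rw [Complex.mul_conj, Complex.mul_conj, Complex.normSq_eq_norm_sq, Complex.normSq_eq_norm_sq]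
    push_cast
    ring
  have hlpos : ∀ w ∈ V, 0 < ‖a w‖ ^ 2 + ‖b w‖ ^ 2 := by
    intro w hw
    rcases h0 w hw with h | h
    · have := norm_pos_iff.2 h
      positivity
    · have := norm_pos_iff.2 h
      positivity
  have hl0 : ∀ w ∈ V, a w * cj (a w) + b w * cj (b w) ≠ 0 := by
    intro w hw
    rw [hl]
    exact_mod_cast (hlpos w hw).ne'
  -- derivatives of f and z
  have hfd : ∀ ζ ∈ V, HasFDerivAt f (fderiv ℝ f ζ) ζ := fun ζ hζ =>
    ((hf.differentiableOn (by simp)).differentiableAt (hV.mem_nhds hζ)).hasFDerivAt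
  have hzd : ∀ ζ ∈ V, HasFDerivAt z (fderiv ℝ z ζ) ζ := fun ζ hζ =>
    ((hz.differentiableOn (by simp)).differentiableAt (hV.mem_nhds hζ)).hasFDerivAt
  have hf' : ∀ ζ ∈ V, ∀ v, fderiv ℝ f ζ v = a ζ ^ 2 * v - cj (b ζ) ^ 2 * cj v := by
    intro ζ hζ v
    rw [fderiv_eq_dz, h1 ζ hζ, h2 ζ hζ]; ring
  have hz' : ∀ ζ ∈ V, ∀ v, ((fderiv ℝ z ζ v : ℝ) : ℂ) = a ζ * b ζ * v + cj (a ζ) * cj (b ζ) * cj v := by
    intro ζ hζ v
    have e1 : fderiv ℝ (fun w => (z w : ℂ)) ζ = Complex.ofRealCLM.comp (fderiv ℝ z ζ) :=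
      (Complex.ofRealCLM.hasFDerivAt.comp ζ (hzd ζ hζ)).fderiv
    have e2 : fderiv ℝ (fun w => (z w : ℂ)) ζ v = ((fderiv ℝ z ζ v : ℝ) : ℂ) := by
      rw [e1]; rfl
    have e3 : dzb (fun w => (z w : ℂ)) ζ = cj (dz (fun w => (z w : ℂ)) ζ) := by
      unfold dz dzb
      rw [e1, cj_div, cj_sub, cj_mul, cj_two]
      simp
    rw [← e2, fderiv_eq_dz, e3, h3 ζ hζ, cj_mul]
  have hX : ∀ ζ ∈ V, fderiv ℝ (Xmap f z) ζ = XL (fderiv ℝ f ζ) (fderiv ℝ z ζ) := fun ζ hζ =>
    (hasFDerivAt_Xmap (hfd ζ hζ) (hzd ζ hζ)).fderiv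
  have cPN : ContDiffOn ℝ ∞ (PN a b) V := by
    exact ((contDiffOn_const.mul ca).mul (conj_cd cb)).mul
      (((ca.mul (conj_cd ca)).add (cb.mul (conj_cd cb))).inv hl0)
  have cQN : ContDiffOn ℝ ∞ (QN a b) V := by
    exact ((cb.mul (conj_cd cb)).sub (ca.mul (conj_cd ca))).mul
      (((ca.mul (conj_cd ca)).add (cb.mul (conj_cd cb))).inv hl0)
  have cQ : ContDiffOn ℝ ∞ (fun w => (QN a b w).re) V := Complex.reCLM.contDiff.comp_contDiffOn cQN
  have hQreal : ∀ w, cj (QN a b w) = QN a b w := by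
    intro w
    unfold QN
    rw [cj_div, cj_sub, cj_add, cj_mul, cj_mul, cj_cj, cj_cj]
    ring
  have hQre : ∀ w, ((QN a b w).re : ℂ) = QN a b w := by
    intro w
    exact Complex.conj_eq_iff_re.1 (hQreal w)
  refine ⟨contDiffOn_Xmap hf hz, ?_, Xmap (PN a b) (fun w => (QN a b w).re),
    contDiffOn_Xmap cPN cQ, ?_⟩
  · -- immersion
    intro w hw
    rw [injective_iff_map_eq_zero]
    intro v hv
    rw [hX w hw, XL_apply] at hv
    have g0 := congrArg (fun x : E3 => x 0) hv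
    have g1 := congrArg (fun x : E3 => x 1) hv
    have g2 := congrArg (fun x : E3 => x 2) hv
    simp only [PiLp.zero_apply] at g0 g1 g2
    have g0' : (fderiv ℝ f w v).re = 0 := g0
    have g1' : (fderiv ℝ f w v).im = 0 := g1
    have g2' : fderiv ℝ z w v = 0 := g2
    have k1 : fderiv ℝ f w v = 0 := Complex.ext g0' g1'
    have k2 := hf' w hw v
    have k3 := hz' w hw v
    rw [k1] at k2
    rw [g2'] at k3
    have k4 : (a w * cj (a w) + b w * cj (b w)) ^ 2 * (v * cj v) = 0 := by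
      have k2' : cj (0:ℂ) = cj (a w ^ 2 * v - cj (b w) ^ 2 * cj v) := by rw [← k2]
      simp only [map_zero, map_sub, map_mul, map_pow, Complex.conj_conj] at k2'
      have e : (a w * cj (a w) + b w * cj (b w)) ^ 2 * (v * cj v) =
          (a w ^ 2 * v - cj (b w) ^ 2 * cj v) * (cj (a w) ^ 2 * cj v - b w ^ 2 * v)
          + (a w * b w * v + cj (a w) * cj (b w) * cj v) ^ 2 := by ring
      rw [e, ← k2, ← k3]
      simp
    have k5 := (mul_eq_zero.1 k4).resolve_left (pow_ne_zero 2 (hl0 w hw))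
    rw [Complex.mul_conj] at k5
    exact Complex.normSq_eq_zero.1 (by exact_mod_cast k5)
  · intro w hw
    refine ⟨?_, ?_, ?_⟩
    · -- norm one
      have hP : PN a b w * cj (PN a b w) + QN a b w ^ 2 = 1 := by
        have hcl : cj (a w * cj (a w) + b w * cj (b w)) = a w * cj (a w) + b w * cj (b w) := by
          rw [hl]; exact Complex.conj_ofReal _
        have e1 : cj (PN a b w) = 2 * cj (a w) * b w / (a w * cj (a w) + b w * cj (b w)) := by
          unfold PN
          rw [cj_div, hcl, cj_mul, cj_mul, cj_cj, cj_two]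
        rw [e1]
        unfold PN QN
        rw [div_mul_div_comm, div_pow, ← sq, ← add_div,
          div_eq_one_iff_eq (pow_ne_zero 2 (hl0 w hw))]
        ring
      have hP' : ‖PN a b w‖ ^ 2 + (QN a b w).re ^ 2 = 1 := by
        rw [Complex.mul_conj, Complex.normSq_eq_norm_sq, ← hQre w] at hP
        exact_mod_cast hP
      have hn : ‖Xmap (PN a b) (fun w => (QN a b w).re) w‖ ^ 2 = 1 := by
        rw [EuclideanSpace.norm_sq_eq, Fin.sum_univ_three]
        rw [← hP', ← Complex.normSq_eq_norm_sq, Complex.normSq_apply]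
        simp [Xmap]
        ring
      have h01 : 0 ≤ ‖Xmap (PN a b) (fun w => (QN a b w).re) w‖ := norm_nonneg _
      nlinarith [hn, h01]
    · -- orthogonality
      intro v
      rw [hX w hw, XL_apply]
      have hcl : cj (a w * cj (a w) + b w * cj (b w)) = a w * cj (a w) + b w * cj (b w) := by
        rw [hl]; exact Complex.conj_ofReal _
      have e1 : cj (PN a b w) = 2 * cj (a w) * b w / (a w * cj (a w) + b w * cj (b w)) := by
        unfold PN
        rw [cj_div, hcl, cj_mul, cj_mul, cj_cj, cj_two]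
      have T : fderiv ℝ f w v * cj (PN a b w) + cj (fderiv ℝ f w v) * PN a b w
          + 2 * (((fderiv ℝ z w v : ℝ) : ℂ) * QN a b w) = 0 := by
        rw [e1, hf' w hw, hz' w hw]
        simp only [cj_sub, cj_mul, cj_pow, cj_cj]
        unfold PN QN
        have := hl0 w hw
        field_simp
        ring
      have T' := congrArg Complex.re T
      rw [← hQre w] at T'
      simp only [Complex.add_re, Complex.mul_re, Complex.conj_re, Complex.conj_im,
        Complex.ofReal_re, Complex.ofReal_im, Complex.zero_re, Complex.re_ofNat, Complex.im_ofNat]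
        at T'
      simp only [PiLp.inner_apply, Fin.sum_univ_three, Xmap]
      simp
      linarith
    · -- mean curvature
      set A := dz a w with hA
      set B := dz b w with hB
      set l := a w * cj (a w) + b w * cj (b w) with hldef
      have hlw : l ≠ 0 := hl0 w hw
      have hcl : cj l = l := by
        rw [hldef, hl]; exact Complex.conj_ofReal _
      refine ⟨SS H (-2 * cj (a w * B - A * b w) / l ^ 2), ?_, trace_SS _ _⟩
      intro v
      have hpc : ((H / 2 * (‖a w‖ ^ 2 + ‖b w‖ ^ 2) : ℝ) : ℂ) = (H : ℂ) / 2 * l := by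
        rw [hldef, hl]; push_cast; ring
      have hva : fderiv ℝ a w v = A * v + (H : ℂ) / 2 * l * cj (b w) * cj v := by
        rw [fderiv_eq_dz, da w hw, hpc]
      have hvb : fderiv ℝ b w v = B * v - (H : ℂ) / 2 * l * cj (a w) * cj v := by
        rw [fderiv_eq_dz, db w hw, hpc]; ring
      have hva' : cj (fderiv ℝ a w v) = cj A * cj v + (H : ℂ) / 2 * l * b w * v := by
        rw [hva]
        simp only [cj_add, cj_mul, hcl, cj_cj, cj_div, cj_re, cj_two]
      have hvb' : cj (fderiv ℝ b w v) = cj B * cj v - (H : ℂ) / 2 * l * a w * v := by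
        rw [hvb]
        simp only [cj_sub, cj_mul, hcl, cj_cj, cj_div, cj_re, cj_two]
      -- derivatives along the line
      have hline : HasDerivAt (fun t : ℝ => w + t • v) v 0 := by
        have := ((hasDerivAt_id (0:ℝ)).smul_const v).const_add w
        simpa using this
      have hw0 : w = w + (0:ℝ) • v := by simp
      have hda : HasDerivAt (fun t : ℝ => a (w + t • v)) (fderiv ℝ a w v) 0 := by
        have h := ((ca.differentiableOn (by simp)).differentiableAt (hV.mem_nhds hw)).hasFDerivAt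
        exact h.comp_hasDerivAt_of_eq 0 hline hw0
      have hdb : HasDerivAt (fun t : ℝ => b (w + t • v)) (fderiv ℝ b w v) 0 := by
        have h := ((cb.differentiableOn (by simp)).differentiableAt (hV.mem_nhds hw)).hasFDerivAt
        exact h.comp_hasDerivAt_of_eq 0 hline hw0
      have hda' : HasDerivAt (fun t : ℝ => cj (a (w + t • v))) (cj (fderiv ℝ a w v)) 0 :=
        (Complex.conjCLE : ℂ →L[ℝ] ℂ).hasFDerivAt.comp_hasDerivAt 0 hda
      have hdb' : HasDerivAt (fun t : ℝ => cj (b (w + t • v))) (cj (fderiv ℝ b w v)) 0 :=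
        (Complex.conjCLE : ℂ →L[ℝ] ℂ).hasFDerivAt.comp_hasDerivAt 0 hdb
      have hdl := (hda.mul hda').add (hdb.mul hdb')
      have hne : a (w + (0:ℝ) • v) * cj (a (w + (0:ℝ) • v)) + b (w + (0:ℝ) • v) * cj (b (w + (0:ℝ) • v))
          ≠ 0 := by
        rw [← hw0]; exact hlw
      have hPd := ((hda.const_mul 2).mul hdb').div hdl hne
      have hQd := ((hdb.mul hdb').sub (hda.mul hda')).div hdl hne
      have hPN : HasFDerivAt (PN a b) (fderiv ℝ (PN a b) w) w :=
        ((cPN.differentiableOn (by simp)).differentiableAt (hV.mem_nhds hw)).hasFDerivAt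
      have hQN : HasFDerivAt (QN a b) (fderiv ℝ (QN a b) w) w :=
        ((cQN.differentiableOn (by simp)).differentiableAt (hV.mem_nhds hw)).hasFDerivAt
      have hP1 : fderiv ℝ (PN a b) w v = _ :=
        (hPN.comp_hasDerivAt_of_eq 0 hline hw0).unique hPd
      have hQ1 : fderiv ℝ (QN a b) w v = _ :=
        (hQN.comp_hasDerivAt_of_eq 0 hline hw0).unique hQd
      have hβ : cj (-2 * cj (a w * B - A * b w) / l ^ 2) = -2 * (a w * B - A * b w) / l ^ 2 := by
        rw [cj_div, cj_pow, hcl, cj_mul, cj_cj, cj_ntwo]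
      have hβ' : -2 * cj (a w * B - A * b w) / l ^ 2 =
          -2 * (cj (a w) * cj B - cj A * cj (b w)) / l ^ 2 := by
        rw [cj_sub, cj_mul, cj_mul]
      have hcS : cj (SS H (-2 * cj (a w * B - A * b w) / l ^ 2) v) =
          (H : ℂ) * cj v + (-2 * (a w * B - A * b w) / l ^ 2) * v := by
        rw [SS_apply, cj_add, cj_mul, cj_mul, hβ, cj_re, cj_cj]
      have hP2 : fderiv ℝ (PN a b) w v =
          - fderiv ℝ f w (SS H (-2 * cj (a w * B - A * b w) / l ^ 2) v) := by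
        rw [hP1, hf' w hw, hcS, SS_apply, hβ']
        have := algP (a w) (cj (a w)) (b w) (cj (b w)) A (cj A) B (cj B) v (cj v) H l hlw hldef
        rw [← this]
        simp only [Pi.mul_apply, Pi.add_apply, ← hw0]
        rw [hva', hvb', hva, hvb, ← hldef]
      have hQ2 : fderiv ℝ (QN a b) w v =
          - ((fderiv ℝ z w (SS H (-2 * cj (a w * B - A * b w) / l ^ 2) v) : ℝ) : ℂ) := by
        rw [hQ1, hz' w hw, hcS, SS_apply, hβ']
        have := algQ (a w) (cj (a w)) (b w) (cj (b w)) A (cj A) B (cj B) v (cj v) H l hlw hldef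
        rw [← this]
        simp only [Pi.mul_apply, Pi.add_apply, Pi.sub_apply, ← hw0]
        rw [hva', hvb', hva, hvb, ← hldef]
      have hQre' : HasFDerivAt (fun w => (QN a b w).re) (Complex.reCLM.comp (fderiv ℝ (QN a b) w)) w :=
        Complex.reCLM.hasFDerivAt.comp w hQN
      rw [(hasFDerivAt_Xmap hPN hQre').fderiv, hX w hw, XL_apply, XL_apply]
      ext i
      fin_cases i
      · simp [hP2]
      · simp [hP2]
      · simp [hQ2]

end Pool.Agent.Helper676.TL.B6
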